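import Pool.Agent.R552.Hur.Main

set_option autoImplicit false

/-!
The scaled gap potential bound for the Hurewicz homomorphism on loops (`m = 1`), for every compact
Riemannian manifold.

* `Form 𝓜 N`: `1`-forms; `IsClosedForm α`: every point has an open neighbourhood on which `α = dg`
  for a smooth function `g` (the closed smooth `1`-forms, by the Poincaré lemma).
* `hur f : Form 𝓜 N → ℝ`, for a continuous map `f : Circle → N`: its value at a closed form `α` is
  the increment over one turn of a primitive of `α` along `f` (and `0` if `α` is not closed). The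
  first two parts of the theorem say that it is the Hurewicz functional: for `C¹` loops it is the
  integral of `f^* α`, and it is homotopy invariant. In this way `H_1(N; ℝ)` is a subspace of the
  space of all functions `Form 𝓜 N → ℝ`, and every norm on it is the restriction of a seminorm `ν`
  of the latter.
* `gapPot ε f`: the double arc-length integral of `ε / |y - x|^2` over the pairs of points of the
  circle with `d(f y, f x) ≥ ε`.
-/

open Real Bundle
open scoped Manifold ContDiff Bundle

namespace Pool.Agent.Results.MP_346ebc_an.HurewiczGap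

open Pool.Agent.R552.Hur

theorem result {E : Type*} [NormedAddCommGroup E] [NormedSpace ℝ E]
    {H : Type*} [TopologicalSpace H] (𝓜 : ModelWithCorners ℝ E H)
    (N : Type*) [EMetricSpace N] [ChartedSpace H N] [IsManifold 𝓜 ∞ N]
    [Bundle.RiemannianBundle (fun x : N => TangentSpace 𝓜 x)]
    [IsContMDiffRiemannianBundle 𝓜 ∞ E (fun x : N => TangentSpace 𝓜 x)]
    [IsRiemannianManifold 𝓜 N] [CompactSpace N] :
    (∀ (f : C(Circle, N)), ContMDiff 𝓘(ℝ, ℝ) 𝓜 1 (fun θ : ℝ => f (Circle.exp θ)) →
      ∀ α : Form 𝓜 N, IsClosedForm α → hur f α = ∫ θ in (0 : ℝ)..(2 * π),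
        α (f (Circle.exp θ)) (mfderiv 𝓘(ℝ, ℝ) 𝓜 (fun θ : ℝ => f (Circle.exp θ)) θ (1 : ℝ))) ∧
    (∀ f g : C(Circle, N), f.Homotopic g → (hur f : Form 𝓜 N → ℝ) = hur g) ∧
    ∃ ε₀ > 0, ∀ ν : Seminorm ℝ (Form 𝓜 N → ℝ),
      ∃ C : ℝ, 0 < C ∧ ∀ ε : ℝ, 0 < ε → ε < ε₀ → ∀ f : C(Circle, N),
        ENNReal.ofReal (ν (hur f)) ≤ ENNReal.ofReal C * gapPot ε f :=
  ⟨fun f hf α hα => hur_integral f hf α hα, fun _ _ h => hur_homotopic h, main 𝓜 N⟩

end Pool.Agent.Results.MP_346ebc_an.HurewiczGap
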